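import Pool.Agent.Y294.TB.Stm

/-!
Project TB: almost every point is good (GOOD); algebraic dependence and derivatives (DEP).
-/

set_option autoImplicit false

open MeasureTheory Set Filter Topology

namespace Pool.Agent.Y641.TB

open Pool.Agent.TH746 Pool.Agent.TH746.AL MvPolynomial H450Al H450Sp
open Pool.Agent.Y294.TB Pool.Agent.H721R2.Quart

/-- the differential of a polynomial in differentiable functions -/
theorem hasFDerivAt_aeval {k : Type} [Field k] [Algebra k ℝ] {Z : Type} [NormedAddCommGroup Z]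
    [NormedSpace ℝ Z] {ι : Type} [Fintype ι] {v : ι → Z → ℝ} {z : Z}
    (hv : ∀ l, DifferentiableAt ℝ (v l) z) (Q : MvPolynomial ι k) :
    HasFDerivAt (fun y => aeval (fun l => v l y) Q)
      ((∑ l, (aeval (fun l => v l z) (pderiv l Q)) •
        (ContinuousLinearMap.proj l : (ι → ℝ) →L[ℝ] ℝ)).comp
        (ContinuousLinearMap.pi fun l => fderiv ℝ (v l) z)) z := by
  have h1 : HasFDerivAt (fun y l => v l y) (ContinuousLinearMap.pi fun l => fderiv ℝ (v l) z) z :=
    hasFDerivAt_pi.2 fun l => (hv l).hasFDerivAt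
  have h2 := (strict_aeval Q (fun l => v l z)).hasFDerivAt
  exact h2.comp z h1

/-- GOOD -/
theorem good : S_GOOD := by
  intro Z _ _ _ _ _ μ _ k _ _ _ ι _ v A hA hv
  have hcQ : Countable (MvPolynomial ι k) :=
    (AddMonoidAlgebra.coeffEquiv (R := k) (M := ι →₀ ℕ)).countable_iff.2 inferInstance
  have h1 : ∀ Q : MvPolynomial ι k, ∃ B ⊆ A, MeasurableSet B ∧ μ (A \ B) = 0 ∧
      ∀ z ∈ B, (fun y => aeval (fun l => v l y) Q) z = 0 →
        fderiv ℝ (fun y => aeval (fun l => v l y) Q) z = 0 := fun Q =>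
    ae_zero (E := ℝ) μ hA fun z hz => (hasFDerivAt_aeval (hv z hz) Q).differentiableAt
  choose B hB1 hB2 hB3 hB4 using h1
  refine ⟨⋂ Q, B Q, ?_, MeasurableSet.iInter hB2, ?_, ?_⟩
  · exact (iInter_subset B 0).trans (hB1 0)
  · rw [sdiff_iInter]
    exact measure_iUnion_null hB3
  · intro z hz Q hQ ζ
    rw [mem_iInter] at hz
    have hzA : z ∈ A := hB1 0 (hz 0)
    have h2 := hB4 Q z (hz Q) hQ
    rw [(hasFDerivAt_aeval (hv z hzA) Q).fderiv] at h2
    have h3 := congrArg (fun T : Z →L[ℝ] ℝ => T ζ) h2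
    simpa using h3

/-- DEP -/
theorem dep : S_DEP := by
  intro Z _ _ k _ _ ι _ v z hgood S i ζ hi hS
  by_cases hiS : i ∈ S
  · exact hS i hiS
  obtain ⟨J', hJ1, hJ2, -⟩ := exists_basis_index k (fun s : S => v s z)
  set J : Set ι := Subtype.val '' J' with hJ
  have hJS : J ⊆ S := by
    rintro _ ⟨s, -, rfl⟩
    exact s.2
  have himg : (fun s : S => v s z) '' J' = (fun l => v l z) '' J := by
    rw [hJ, image_image]
  have hind : AlgebraicIndependent k (fun j : J => v j z) := by
    have hs : ∀ j : J, ∃ s : J', (s : S).1 = j.1 := by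
      rintro ⟨_, s, hs, rfl⟩
      exact ⟨⟨s, hs⟩, rfl⟩
    choose g hg using hs
    have hinj : Function.Injective g := by
      intro a b hab
      apply Subtype.ext
      rw [← hg a, ← hg b, hab]
    have h1 := hJ1.comp g hinj
    have h2 : (fun j : J => v j z) = (fun j : J' => v (j : S) z) ∘ g := by
      funext j
      show v j z = v ((g j : S) : ι) z
      rw [hg]
    rw [h2]
    exact h1
  have hcl : v i z ∈ cl k ((fun l => v l z) '' J) := by
    refine cl_cl_mono k ?_ hi
    rintro _ ⟨l, hl, rfl⟩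
    have h1 := hJ2 ⟨l, hl⟩
    rw [himg] at h1
    exact h1
  obtain ⟨G, hG1, hG2, hG3⟩ := exists_eq_of_mem_cl (fun l => v l z) J hind i
    (fun h => hiS (hJS h)) hcl
  have h1 := hgood G hG1 ζ
  have h2 : ∑ l, aeval (fun l => v l z) (pderiv l G) * fderiv ℝ (v l) z ζ =
      aeval (fun l => v l z) (pderiv i G) * fderiv ℝ (v i) z ζ := by
    refine Finset.sum_eq_single i (fun l _ hl => ?_) (fun h => absurd (Finset.mem_univ i) h)
    by_cases hlJ : l ∈ J
    · rw [hS l (hJS hlJ), mul_zero]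
    · rw [hG3 l hlJ hl, map_zero, zero_mul]
  rw [h2] at h1
  exact (mul_eq_zero.1 h1).resolve_left hG2

end Pool.Agent.Y641.TB
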