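import Pool.Agent.Y294.TB.Stm

/-!
Project TB: the arbitrary vertex is the intersection of two lines (TWO).
-/

set_option autoImplicit false

open Set

namespace Pool.Agent.Y641.TB

open Pool.Agent.TH746 Pool.Agent.TH746.AL MvPolynomial H450Al H450Sp
open Pool.Agent.Y294.TB

/-- one step: the flight time and the next vertex are algebraic -/
theorem step_cl {k : Type} [Field k] [Algebra k ℝ] {S : Set ℝ} (Φ : MvPolynomial (Fin 2) k)
    {q q' e : Fin 2 → ℝ} {s : ℝ} (hq : ∀ i, q i ∈ cl k S) (he : ∀ i, e i ∈ cl k S)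
    (hq' : q' = fun l => q l - s * e l) (h : aeval q' Φ = 0)
    (h' : ∑ l, grad Φ q' l * e l ≠ 0) :
    s ∈ clAlg k S ∧ (∀ l, q' l ∈ cl k S) ∧ ∀ l, grad Φ q' l ∈ cl k S := by
  have h1 : s ∈ cl k (range q ∪ range e) := by
    refine root_simple k Φ q e s ?_ ?_
    · rw [← hq']
      exact h
    · rw [← hq']
      exact h'
  have h2 : s ∈ cl k S := by
    refine cl_cl_mono k ?_ h1
    rintro _ (⟨i, rfl⟩ | ⟨i, rfl⟩)
    · exact hq i
    · exact he i
  have h3 : ∀ l, q' l ∈ cl k S := by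
    intro l
    rw [hq']
    exact (clAlg k S).sub_mem (hq l) ((clAlg k S).mul_mem h2 (he l))
  exact ⟨h2, h3, fun l => aeval_mem_cl k h3 _⟩

theorem two : S_TWO := by
  intro k _ _ n j S Φ q u t hj hjn h0 hu0 hn hun hΦ hg hq hu hdet
  -- upwards
  have up : ∀ i, i < j → (∀ l, q i l ∈ cl k S) ∧ ∀ l, u i l ∈ cl k S := by
    intro i
    induction i with
    | zero => exact fun _ => ⟨h0, hu0⟩
    | succ i ih =>
      intro hi
      obtain ⟨a1, a2⟩ := ih (by omega)
      have b1 : i + 1 < n := by omega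
      have b2 : i + 1 ≠ j := by omega
      have hq' : q (i + 1) = fun l => q i l - (-t i) * u i l := by
        rw [hq i (by omega)]
        funext l
        ring
      obtain ⟨-, c2, c3⟩ := step_cl (Φ (i + 1)) a1 a2 hq' (hΦ (i + 1) (by omega) b1 b2)
        (hg i b1 b2)
      refine ⟨c2, fun l => ?_⟩
      rw [hu i b1 b2]
      exact refl_mem_cl k c3 a2 l
  -- downwards
  have down : ∀ m, m ≤ n - 1 - j → (∀ l, q (n - m) l ∈ cl k S) ∧
      ∀ l, u (n - 1 - m) l ∈ cl k S := by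
    intro m
    induction m with
    | zero => exact fun _ => ⟨hn, hun⟩
    | succ m ih =>
      intro hm
      obtain ⟨a1, a2⟩ := ih (by omega)
      obtain ⟨i, hi⟩ : ∃ i, n - 1 - m = i + 1 := ⟨n - 1 - m - 1, by omega⟩
      have e1 : n - m = i + 1 + 1 := by omega
      have e2 : n - (m + 1) = i + 1 := by omega
      have e3 : n - 1 - (m + 1) = i := by omega
      rw [e1] at a1
      rw [hi] at a2
      rw [e2, e3]
      have b1 : i + 1 < n := by omega
      have b2 : i + 1 ≠ j := by omega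
      have hq' : q (i + 1) = fun l => q (i + 1 + 1) l - t (i + 1) * u (i + 1) l := by
        rw [hq (i + 1) b1]
        funext l
        ring
      have hne : ∑ l, grad (Φ (i + 1)) (q (i + 1)) l ^ 2 ≠ 0 := by
        refine sq_sum_ne _ fun h => hg i b1 b2 ?_
        rw [h]
        simp
      have hgu : ∑ l, grad (Φ (i + 1)) (q (i + 1)) l * u (i + 1) l ≠ 0 := by
        have h2 := refl_dot_normal (grad (Φ (i + 1)) (q (i + 1))) (u i) hne
        rw [← hu i b1 b2] at h2
        have h3 : ∑ l, grad (Φ (i + 1)) (q (i + 1)) l * u (i + 1) l =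
            -∑ l, grad (Φ (i + 1)) (q (i + 1)) l * u i l := by
          calc ∑ l, grad (Φ (i + 1)) (q (i + 1)) l * u (i + 1) l
              = ∑ l, u (i + 1) l * grad (Φ (i + 1)) (q (i + 1)) l :=
                Finset.sum_congr rfl fun l _ => mul_comm _ _
            _ = -∑ l, u i l * grad (Φ (i + 1)) (q (i + 1)) l := h2
            _ = _ := by
                congr 1
                exact Finset.sum_congr rfl fun l _ => mul_comm _ _
        rw [h3]
        exact neg_ne_zero.2 (hg i b1 b2)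
      obtain ⟨-, c2, c3⟩ := step_cl (Φ (i + 1)) a1 a2 hq' (hΦ (i + 1) (by omega) b1 b2) hgu
      refine ⟨c2, fun l => ?_⟩
      have h4 : u i = refl (grad (Φ (i + 1)) (q (i + 1))) (u (i + 1)) := by
        rw [hu i b1 b2, refl_refl _ _ hne]
      rw [h4]
      exact refl_mem_cl k c3 a2 l
  obtain ⟨i, rfl⟩ : ∃ i, j = i + 1 := ⟨j - 1, by omega⟩
  obtain ⟨p1, p2⟩ := up i (by omega)
  obtain ⟨p3, p4⟩ := down (n - 1 - (i + 1)) le_rfl
  have e1 : n - (n - 1 - (i + 1)) = i + 1 + 1 := by omega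
  have e2 : n - 1 - (n - 1 - (i + 1)) = i + 1 := by omega
  rw [e1] at p3
  rw [e2] at p4
  have e3 : i + 1 - 1 = i := by omega
  rw [e3] at hdet
  have q1 : ∀ l, q (i + 1) l = q i l + t i * u i l := fun l => by rw [hq i (by omega)]
  have q2 : ∀ l, q (i + 1 + 1) l = q (i + 1) l + t (i + 1) * u (i + 1) l := fun l => by
    rw [hq (i + 1) hjn]
  set Dt := u i 0 * u (i + 1) 1 - u i 1 * u (i + 1) 0 with hDt
  have hDm : Dt⁻¹ ∈ clAlg k S := inv_mem_cl k ((clAlg k S).sub_mem
    ((clAlg k S).mul_mem (p2 0) (p4 1)) ((clAlg k S).mul_mem (p2 1) (p4 0)))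
  have hti : t i = ((q (i + 1 + 1) 0 - q i 0) * u (i + 1) 1 -
      (q (i + 1 + 1) 1 - q i 1) * u (i + 1) 0) * Dt⁻¹ := by
    rw [eq_mul_inv_iff_mul_eq₀ hdet, q2 0, q2 1, q1 0, q1 1, hDt]
    ring
  have htm : t i ∈ clAlg k S := by
    rw [hti]
    exact (clAlg k S).mul_mem ((clAlg k S).sub_mem
      ((clAlg k S).mul_mem ((clAlg k S).sub_mem (p3 0) (p1 0)) (p4 1))
      ((clAlg k S).mul_mem ((clAlg k S).sub_mem (p3 1) (p1 1)) (p4 0))) hDm
  intro l
  rw [q1 l]
  exact (clAlg k S).add_mem (p1 l) ((clAlg k S).mul_mem htm (p2 l))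

end Pool.Agent.Y641.TB
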